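import Pool.Agent.TH48.Final2

/-!
# Chromatic roots of 3-connected planar graphs are dense outside two lenses and in a part of one
-/

namespace Pool.Agent.Results.MP_60451a_co.DensityRegion

open Pool.Agent.TC47 Pool.Agent.TH48
open Pool.Agent.Ch3 (rootSet)

/-- Every complex number `z` with `|z - 1| ≥ 1`, or with `|z| ≥ 1` and `|z - 2| ≥ 1`, or with
`|z - 2| > 1` and `|b| < |a|` for some pair `(a, b)` in `SPair z`, or with `|z - 2| > 1` and
`|(1 - z)^n - 1| < |(1 - z)^n - (1 - z)|` for some `n ≥ 2`, is a limit of chromatic roots of finite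
3-connected planar graphs. -/
theorem result : {z : ℂ | 1 ≤ ‖z - 1‖ ∨ (1 ≤ ‖z‖ ∧ 1 ≤ ‖z - 2‖) ∨
    (1 < ‖z - 2‖ ∧ ∃ a b : ℂ, SPair z a b ∧ ‖b‖ < ‖a‖) ∨
    (1 < ‖z - 2‖ ∧ ∃ n : ℕ, 2 ≤ n ∧ ‖(1 - z) ^ n - 1‖ < ‖(1 - z) ^ n - (1 - z)‖)} ⊆
    closure rootSet := by
  intro z hz
  rcases le_or_gt 1 ‖z - 1‖ with h1 | h1
  · exact dense_two_lenses z (Or.inl h1)
  · rcases hz with h | h | ⟨h2, a, b, hS, hab⟩ | ⟨h2, n, hn, h⟩
    · exact dense_two_lenses z (Or.inl h)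
    · exact dense_two_lenses z (Or.inr h)
    · exact closure_mono threeConnRoots_subset_rootSet (sp_region z a b h1 h2 hS hab)
    · exact closure_mono threeConnRoots_subset_rootSet (theta_region n hn z h1 h2 h)

end Pool.Agent.Results.MP_60451a_co.DensityRegion
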