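import Pool.Agent.TH48.G10

/-!
# The closure of the chromatic roots of 3-connected planar graphs in the region |z - 1| < 1 < |z - 2|
-/

namespace Pool.Agent.Results.MP_60451a_co.EscapeSet

open Pool.Agent.TC47 Pool.Agent.TH48

/-- The set `Escape` is open, and in the region `W`, `|z - 1| < 1 < |z - 2|`, the closure of the set
of chromatic roots of 3-connected planar graphs is equal to the closure of `Escape`. -/
theorem result : IsOpen Escape ∧ closure threeConnRoots ∩ W = closure Escape ∩ W :=
  ⟨isOpen_Escape, three_eq⟩

end Pool.Agent.Results.MP_60451a_co.EscapeSet
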