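import Pool.Agent.TC47.Main

/-!
# Chromatic roots of 3-connected planar graphs and of all planar graphs outside `|z - 2| ≤ 1`
-/

namespace Pool.Agent.Results.MP_60451a_co.PlanarTransfer

open Pool.Agent.TC47

/-- Outside the closed disc `|z - 2| ≤ 1` the closure of the set of chromatic roots of
3-connected planar graphs is equal to the closure of the set of chromatic roots of all planar
graphs. -/
theorem result : closure threeConnRoots \ Metric.closedBall 2 1 =
    closure planarRoots \ Metric.closedBall 2 1 :=
  transfer

end Pool.Agent.Results.MP_60451a_co.PlanarTransfer
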